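import Pool.Agent.V8H95.PI.Curve

/-!
# Two ends, spherically symmetric metric, arbitrary `h`: a condition along one curve

Initial data `(g, h)` on `M = ℝ³ ∖ {0}` with two ends, `g = φ(|x|)⁴ δ` spherically symmetric and `h`
an ARBITRARY symmetric tensor field. On a centred sphere `S` with unit normal `ν` (pointing to the
special end `|x| → ∞`) let `β = h(ν, ·)`, let `h°` be the trace-free part of `h` on `S` and `H` the
mean curvature. Let `c` be ONE curve from the second end to the special end which crosses every
centred sphere once, for instance a ray; `V` is the tangential part of its velocity when the radial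
part has length one. Suppose that at the points of `c`

* the dominant energy condition holds, and
* `(tr_S h) (div_S β + ∂_V tr_S h) + H (2 |β|² + |h°|²) / 2 ≥ 0` wherever `|tr_S h| ≤ H`.

Then `m ≥ √(A / 16 π)`, where `A` is the infimum of the areas of all smooth boundaries of regions
containing the second end and not the special end. No apparent horizon is assumed. Along a ray the
condition holds for instance if `div_S β = 0` there, or if `tr_S h = 0` there. The proof: along the
curve `ρ (1 - ρ² H² / 4) + ρ³ (tr_S h)² / 4` is nondecreasing beyond the last point with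
`|tr_S h| ≥ H`, which exists because of the second end, and there it is equal to `ρ`.
-/

set_option autoImplicit false

namespace Pool.Agent.Results.MP_ede089_mp.OneCurve

open Pool.Agent.K4H63.PI Pool.Agent.V8H95.PI Filter Topology

theorem result (φ : ℝ → ℝ) (h : E → Matrix (Fin 3) (Fin 3) ℝ) (m : ℝ) (c : ℝ → E)
    -- `φ` is positive and `C²` on `(0, ∞)`; `h` is symmetric and `C¹` on `ℝ³ ∖ {0}`
    (hφ : Good φ) (hh : Tensor h)
    -- the special end is asymptotically flat with total mass `m`
    (flat : FlatEnd φ m) (decay : Decay h)
    -- the area radius tends to infinity at the second end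
    (second : Tendsto (fun r => (φ r) ^ 2 * r) (𝓝[>] 0) atTop)
    -- a curve which crosses every centred sphere once
    (norm : ∀ r, 0 < r → ‖c r‖ = r) (diff : ∀ r, 0 < r → DifferentiableAt ℝ c r)
    -- the dominant energy condition along the curve
    (dec : ∀ r, 0 < r → momentumNorm (metric φ) h (c r) ≤ energy (metric φ) h (c r))
    -- the condition at the points of the curve which are not trapped
    (cond : ∀ r, 0 < r → |trS φ h (c r)| ≤ meanCurv φ (c r) →
      0 ≤ trS φ h (c r) * (divS φ h (c r) + slope φ h c r) +
        meanCurv φ (c r) * transS φ h (c r) / 2) :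
    0 < m ∧ leastArea {0} (metric φ) ≤ ENNReal.ofReal (16 * Real.pi * m ^ 2) := by
  obtain ⟨r₁, hr₁, hneg⟩ := exists_neg hφ second
  have hne : c r₁ ≠ 0 := by
    rw [← norm_pos_iff, norm r₁ hr₁]; exact hr₁
  obtain ⟨r₀, h1, h2⟩ := curve_theorem hφ hh flat decay norm diff hr₁
    (fun r hr => dec r (hr₁.trans_le hr)) (fun r hr => cond r (hr₁.trans_le hr))
    (by
      rw [meanCurv_eq hφ hne, norm r₁ hr₁]
      have hp := hφ.pos r₁ hr₁
      refine le_trans (le_of_lt ?_) (abs_nonneg _)
      exact div_neg_of_neg_of_pos (by linarith) (by positivity))
  exact finish hφ (hr₁.trans_le h1) h2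

end Pool.Agent.Results.MP_ede089_mp.OneCurve
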