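import Pool.Agent.V8H95.PI.RadTrace

/-!
# Two ends, spherically symmetric metric, `h` with rotationally symmetric trace

Initial data `(g, h)` on `M = ℝ³ ∖ {0}` with two ends, `g = φ(|x|)⁴ δ` spherically symmetric and `h`
an arbitrary symmetric tensor field satisfying the dominant energy condition. Suppose that on every
centred sphere `S` with `|avg tr_S h| ≤ H`, one of the following two conditions holds:

* `tr_g h` is constant on `S` (in particular this covers all `h` whose trace is a function of `|x|`,
  for instance all `h` with `tr_g h = τ(|x|)`, the other five components being arbitrary), or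
* the average over `S` of `(tr_g h)² - |h|²` is at most its value `2 a p + p² / 2` at the rotational
  average of `h`; here `a`, `p` are the averages of `h(ν, ν)` and `tr_S h`.

Then `m ≥ √(A / 16 π)`, where `A` is the infimum of the areas of all smooth boundaries of regions
containing the second end and not the special end. No apparent horizon is assumed.

The averaged argument `avg_theorem` (a mass function built from the average of `tr_S h`) and the
asymptotics are from the library `Pool.Agent.K4H63.PI`.
-/

set_option autoImplicit false

namespace Pool.Agent.Results.MP_ede089_mp.RadialTrace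

open Pool.Agent.K4H63.PI Pool.Agent.V8H95.PI Filter Topology

theorem result (φ : ℝ → ℝ) (h : E → Matrix (Fin 3) (Fin 3) ℝ) (m : ℝ)
    -- `φ` is positive and `C²` on `(0, ∞)`; `h` is symmetric and `C¹` on `ℝ³ ∖ {0}`
    (hφ : Good φ) (hh : Tensor h)
    -- the special end is asymptotically flat with total mass `m`
    (flat : FlatEnd φ m) (decay : Decay h)
    -- the area radius tends to infinity at the second end
    (second : Tendsto (fun r => (φ r) ^ 2 * r) (𝓝[>] 0) atTop)
    -- the dominant energy condition
    (dec : ∀ x : E, x ≠ 0 → momentumNorm (metric φ) h x ≤ energy (metric φ) h x)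
    -- `tr_g h` is constant on the sphere, or the averaged condition holds
    (cond : ∀ r : ℝ, 0 < r → |sphAvg (trS φ h) r| ≤ sphereH φ r →
      (∃ τ : ℝ, ∀ w : E, ‖w‖ = 1 → trg (metric φ) h (r • w) = τ) ∨ AvgCond φ h r) :
    0 < m ∧ leastArea {0} (metric φ) ≤ ENNReal.ofReal (16 * Real.pi * m ^ 2) := by
  obtain ⟨r₁, hr₁, hneg⟩ := exists_neg hφ second
  have hp := hφ.pos r₁ hr₁
  obtain ⟨r₀, h1, h2⟩ := avg_theorem hφ hh flat decay hr₁
    (fun x hx => dec x (by
      rw [← norm_pos_iff]
      exact hr₁.trans_le hx))
    (fun r hr hu => (cond r (hr₁.trans_le hr) hu).elim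
      (avgCond_of_const hφ hh (hr₁.trans_le hr)) id)
    (by
      rw [sphereH_eq hφ hr₁]
      refine le_trans (le_of_lt ?_) (abs_nonneg _)
      exact div_neg_of_neg_of_pos (by linarith) (by positivity))
  exact finish hφ (hr₁.trans_le h1) h2

end Pool.Agent.Results.MP_ede089_mp.RadialTrace
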