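import Pool.Agent.V8H95.PI.SliceEnd

/-!
# Arbitrary slices of spherically symmetric spacetimes

Let `(Q × S², -Ω² du dv + r² dω²)` be a spherically symmetric spacetime and let `M` be ANY spacelike
hypersurface `x ↦ (u(x), v(x), x / |x|)`, `x ∈ ℝ³ ∖ {0}`, with two ends. Neither the induced metric
`g` nor the second fundamental form `h` of `M` needs to have any symmetry. (At every point of a
spacelike hypersurface the map to `S²` is a submersion; the curves on which it is constant are the
rays in the coordinates `x`.) Suppose that

* the components `G_uu`, `G_uv`, `G_vv` of the Einstein tensor are nonnegative at the points of `M`,
  as they are if the spacetime satisfies the dominant energy condition;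
* at the special end `|x| → ∞` the metric satisfies `|g_ij - δ_ij| ≤ C / |x|`, the derivative of the
  area radius `r` along the unit normal of the rays in `Q` is `o(|x|^(-1/2))`, and the ADM flux
  integrals converge to the total mass `m`;
* at the second end `x → 0` the area radius tends to infinity;
* at both ends `u` and `v` tend to their extreme values.

Then `m ≥ √(A / 16 π)`, where `A` is the infimum of the areas of all smooth boundaries of regions
containing the second end and not the special end. No apparent horizon is assumed.

Idea of the proof. The Misner–Sharp mass is nondecreasing along each ray beyond its last point `p`
which is trapped or marginally trapped (it exists because of the second end), where it is `r(p)/2`;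
its limit on a suitable ray is at most `m`, because `m` is at least the limit of the averages over
the spheres. At `p` one of the null derivatives of `r` vanishes; on the null hypersurface through `p`
in the corresponding direction Raychaudhuri's equation gives `r ≤ r(p)`, and this null hypersurface
intersects `M` in a surface which separates the ends and has area `∫ r² dω ≤ 4 π r(p)²`.
-/

set_option autoImplicit false

namespace Pool.Agent.Results.MP_ede089_mp.Slices

open Pool.Agent.K4H63.PI Pool.Agent.V8H95.PI Filter Topology

theorem result (Q : Set (ℝ × ℝ)) (Ω r : ℝ × ℝ → ℝ) (u v : E → ℝ) (m : ℝ)
    -- a spherically symmetric spacetime and a spacelike hypersurface without symmetry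
    (spacetime : Spacetime Q Ω r) (hypersurface : Hypersurface Q Ω r u v)
    -- the energy condition at the points of the hypersurface
    (energy : EnergyCond Ω r u v)
    -- two ends, the special one asymptotically flat with total mass `m`
    (ends : TwoEnds r u v) (flat : FlatSlice Ω r u v m) :
    0 < m ∧ leastArea {0} (slice Ω r u v) ≤ ENNReal.ofReal (16 * Real.pi * m ^ 2) :=
  slice_theorem spacetime hypersurface energy ends flat

end Pool.Agent.Results.MP_ede089_mp.Slices
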