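import Pool.Agent.V8H95.PI.RadTrace

/-!
# Two ends, spherically symmetric metric: a condition where `|tr_S h|` is maximal

Initial data `(g, h)` on `M = ℝ³ ∖ {0}` with two ends, `g = φ(|x|)⁴ δ` spherically symmetric and `h`
an arbitrary symmetric tensor field satisfying the dominant energy condition. On a centred sphere `S`
with unit normal `ν` let `β = h(ν, ·)`, let `h°` be the trace-free part of `h` on `S` and `H` the mean
curvature. Suppose that every centred sphere `S` with `|tr_S h| ≤ H` everywhere on `S` satisfies one
of the following two conditions: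

* `tr_S h` is constant on `S` (in particular this covers all `h` for which `tr_S h` is a function of
  `|x|`, the other five components of `h` being arbitrary), or
* at some point of `S` where `|tr_S h|` is maximal
  `(tr_S h) div_S β + H (2 |β|² + |h°|²) / 2 ≥ 0`.

Then `m ≥ √(A / 16 π)`, where `A` is the infimum of the areas of all smooth boundaries of regions
containing the second end and not the special end. No apparent horizon is assumed.

The monotonicity of the mass function built from the maximum of `|tr_S h|` is the theorem
`peak_theorem` of the library `Pool.Agent.K4H63.PI`.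
-/

set_option autoImplicit false

namespace Pool.Agent.Results.MP_ede089_mp.SphereTrace

open Pool.Agent.K4H63.PI Pool.Agent.V8H95.PI Filter Topology

theorem result (φ : ℝ → ℝ) (h : E → Matrix (Fin 3) (Fin 3) ℝ) (m : ℝ)
    -- `φ` is positive and `C²` on `(0, ∞)`; `h` is symmetric and `C¹` on `ℝ³ ∖ {0}`
    (hφ : Good φ) (hh : Tensor h)
    -- the special end is asymptotically flat with total mass `m`
    (flat : FlatEnd φ m) (decay : Decay h)
    -- the area radius tends to infinity at the second end
    (second : Tendsto (fun r => (φ r) ^ 2 * r) (𝓝[>] 0) atTop)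
    -- the dominant energy condition
    (dec : ∀ x : E, x ≠ 0 → momentumNorm (metric φ) h x ≤ energy (metric φ) h x)
    -- `tr_S h` is constant on the sphere, or the inequality at one point of maximal `|tr_S h|`
    (cond : ∀ r : ℝ, 0 < r → (∀ w : E, ‖w‖ = 1 → |trS φ h (r • w)| ≤ sphereH φ r) →
      (∃ c : ℝ, ∀ w : E, ‖w‖ = 1 → trS φ h (r • w) = c) ∨ ∃ w : E, ‖w‖ = 1 ∧ PeakAt φ h r w) :
    0 < m ∧ leastArea {0} (metric φ) ≤ ENNReal.ofReal (16 * Real.pi * m ^ 2) := by
  obtain ⟨r₁, hr₁, hneg⟩ := exists_neg hφ second
  have hp := hφ.pos r₁ hr₁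
  obtain ⟨r₀, h1, h2⟩ := peak_theorem hφ hh flat decay hr₁
    (fun x hx => dec x (by
      rw [← norm_pos_iff]
      exact hr₁.trans_le hx))
    (fun r hr hu => cond r (hr₁.trans_le hr) hu)
    ⟨EuclideanSpace.single 0 1, by simp, by
      rw [sphereH_eq hφ hr₁]
      refine le_trans (le_of_lt ?_) (abs_nonneg _)
      exact div_neg_of_neg_of_pos (by linarith) (by positivity)⟩
  exact finish hφ (hr₁.trans_le h1) h2

end Pool.Agent.Results.MP_ede089_mp.SphereTrace
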